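import Pool.Agent.helper70.GB.SpecK

/-!
# Project gb, module FN: the final step of the proof of Rao's theorem (note, R.5)
-/

open Matrix Polynomial

namespace GB

universe u

section Aux

variable {A : Type u} [CommRing A]

theorem FN_dsum_mul {ι κ : Type*} [Fintype ι] [DecidableEq ι] [Fintype κ] [DecidableEq κ]
    (M M' : Matrix ι ι A) (N N' : Matrix κ κ A) :
    dsum M N * dsum M' N' = dsum (M * M') (N * N') := by
  unfold dsum
  rw [fromBlocks_multiply]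
  simp

theorem FN_dsum_det {ι κ : Type*} [Fintype ι] [DecidableEq ι] [Fintype κ] [DecidableEq κ]
    (M : Matrix ι ι A) (N : Matrix κ κ A) : (dsum M N).det = M.det * N.det := by
  unfold dsum
  rw [det_fromBlocks_zero₂₁]

theorem FN_dsum_transpose {ι κ : Type*} [Fintype ι] [DecidableEq ι] [Fintype κ] [DecidableEq κ]
    (M : Matrix ι ι A) (N : Matrix κ κ A) : (dsum M N)ᵀ = dsum Mᵀ Nᵀ := by
  unfold dsum
  rw [fromBlocks_transpose]
  simp

theorem FN_Hyp_det (κ : Type*) [Fintype κ] [DecidableEq κ] : IsUnit (Hyp κ A).det := by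
  have h : Hyp κ A * (-Hyp κ A) = 1 := by
    unfold Hyp
    rw [fromBlocks_neg, fromBlocks_multiply, ← fromBlocks_one]
    simp
  have h2 := congrArg Matrix.det h
  rw [det_mul, det_one] at h2
  exact IsUnit.of_mul_eq_one _ h2

/-- the equivalence for `1 ⊕ σ`. -/
def FN_eq : Fin 3 ⊕ Fin 1 ≃ Fin 4 where
  toFun := Sum.elim Fin.succ (fun _ => 0)
  invFun := Fin.cases (Sum.inr 0) Sum.inl
  left_inv := by
    rintro (i | i)
    · simp
    · have : i = 0 := Subsingleton.elim _ _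
      subst this
      rfl
  right_inv := by
    intro i
    refine Fin.cases ?_ (fun j => ?_) i
    · rfl
    · simp

theorem FN_oneSum (M : Matrix (Fin 3) (Fin 3) A) :
    oneSum M = Matrix.reindex FN_eq FN_eq (dsum M (1 : Matrix (Fin 1) (Fin 1) A)) := by
  have h : (oneSum M).submatrix FN_eq FN_eq = dsum M (1 : Matrix (Fin 1) (Fin 1) A) := by
    ext p q
    rcases p with p | p <;> rcases q with q | q <;> fin_cases p <;> fin_cases q <;> rfl
  rw [← h]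
  ext i j
  simp

theorem FN_oneSum_det (M : Matrix (Fin 3) (Fin 3) A) : (oneSum M).det = M.det := by
  rw [FN_oneSum, Matrix.det_reindex_self, FN_dsum_det, det_one, mul_one]

theorem FN_oneSum_transpose (M : Matrix (Fin 3) (Fin 3) A) : (oneSum M)ᵀ = oneSum Mᵀ := by
  rw [FN_oneSum, FN_oneSum, Matrix.reindex_apply, Matrix.reindex_apply, transpose_submatrix,
    FN_dsum_transpose, transpose_one]

theorem FN_k_oneSum (𝒦 : K1Data.{u} A) (M : Matrix (Fin 3) (Fin 3) A) (h : IsUnit M.det) :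
    𝒦.k (oneSum M) = 𝒦.k M := by
  rw [FN_oneSum, 𝒦.k_reindex, 𝒦.k_dsum_one M h]

theorem FN_k_one (𝒦 : K1Data.{u} A) (ι : Type) [Fintype ι] [DecidableEq ι] :
    𝒦.k (1 : Matrix ι ι A) = 0 := 𝒦.k_E _ one_mem_E

theorem FN_k_pow (𝒦 : K1Data.{u} A) {ι : Type} [Fintype ι] [DecidableEq ι] (s : Matrix ι ι A)
    (hs : IsUnit s.det) (n : ℕ) : 𝒦.k (s ^ n) = n • 𝒦.k s := by
  induction n with
  | zero => rw [pow_zero, FN_k_one, zero_smul]
  | succ n ih =>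
    rw [pow_succ, 𝒦.k_mul _ _ (by rw [det_pow]; exact hs.pow n) hs, ih, succ_nsmul]

theorem FN_um_pow {a b c : A} {z : Fin 3 → A} (h : ![a, b, c] ⬝ᵥ z = 1) (M : ℕ) :
    ∃ x : Fin 3 → A, ![a ^ M, b, c] ⬝ᵥ x = 1 := by
  have h1 : a * z 0 + b * z 1 + c * z 2 = 1 := by
    simpa [dotProduct, Fin.sum_univ_three] using h
  obtain ⟨u, hu⟩ : (b * z 1 + c * z 2) ∣ 1 - (a * z 0) ^ M := by
    have := sub_dvd_pow_sub_pow (1 : A) (a * z 0) M
    rw [one_pow] at this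
    have e : 1 - a * z 0 = b * z 1 + c * z 2 := by rw [← h1]; ring
    rwa [e] at this
  refine ⟨![z 0 ^ M, z 1 * u, z 2 * u], ?_⟩
  simp only [dotProduct, Fin.sum_univ_three]
  show a ^ M * z 0 ^ M + b * (z 1 * u) + c * (z 2 * u) = 1
  have e : b * (z 1 * u) + c * (z 2 * u) = 1 - (a * z 0) ^ M := by rw [hu]; ring
  rw [mul_pow] at e
  linear_combination e

theorem FN_V_inj {w w' x x' : Fin 3 → A} (h : V w w' = V x x') : w = x := by
  funext i
  have h0 := congrFun (congrFun h 0) 1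
  have h1 := congrFun (congrFun h 0) 2
  have h2 := congrFun (congrFun h 0) 3
  simp only [V, of_apply, cons_val', cons_val_zero, cons_val_one, empty_val',
    cons_val_fin_one] at h0 h1 h2
  fin_cases i
  · exact h0
  · exact h1
  · exact h2

theorem FN_commute {ι : Type} [Fintype ι] [DecidableEq ι] {s ψ : Matrix ι ι A}
    (h : sᵀ * ψ = ψ * s) (n : ℕ) : (s ^ n)ᵀ * ψ = ψ * s ^ n := by
  induction n with
  | zero => simp
  | succ n ih =>
    rw [pow_succ, transpose_mul, Matrix.mul_assoc, ih, ← Matrix.mul_assoc, h, Matrix.mul_assoc,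
      ← pow_succ', pow_succ]

/-- the equivalence which enlarges the hyperbolic part. -/
def FN_e (r N : ℕ) : (Fin 4 ⊕ (Fin r ⊕ Fin r)) ⊕ (Fin N ⊕ Fin N) ≃
    Fin 4 ⊕ (Fin (r + N) ⊕ Fin (r + N)) :=
  (Equiv.sumAssoc _ _ _).trans (Equiv.sumCongr (Equiv.refl _)
    ((Equiv.sumSumSumComm _ _ _ _).trans (Equiv.sumCongr finSumFinEquiv finSumFinEquiv)))

theorem FN_e_hyp (r N : ℕ) (X : Matrix (Fin 4) (Fin 4) A) :
    (dsum (dsum X (Hyp (Fin r) A)) (Hyp (Fin N) A)).submatrix (FN_e r N).symm (FN_e r N).symm =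
      dsum X (Hyp (Fin (r + N)) A) := by
  have h : (dsum X (Hyp (Fin (r + N)) A)).submatrix (FN_e r N) (FN_e r N) =
      dsum (dsum X (Hyp (Fin r) A)) (Hyp (Fin N) A) := by
    ext p q
    rcases p with (p | p | p) | p | p <;> rcases q with (q | q | q) | q | q <;>
      simp [FN_e, dsum, Hyp, Matrix.one_apply, Fin.ext_iff] <;> omega
  rw [← h]
  ext i j
  simp

theorem FN_E_double {ι : Type} [Fintype ι] [DecidableEq ι] (N : ℕ) {g : Matrix ι ι A}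
    (h : dsum g (1 : Matrix (Fin N) (Fin N) A) ∈ E (ι ⊕ Fin N) A) :
    dsum g (1 : Matrix (Fin N ⊕ Fin N) (Fin N ⊕ Fin N) A) ∈ E (ι ⊕ (Fin N ⊕ Fin N)) A := by
  have h1 := E_submatrix (Equiv.sumAssoc ι (Fin N) (Fin N)).symm (E_blocks_left (κ := Fin N) h)
  have e : (fromBlocks (dsum g (1 : Matrix (Fin N) (Fin N) A)) 0 0
      (1 : Matrix (Fin N) (Fin N) A)).submatrix (Equiv.sumAssoc ι (Fin N) (Fin N)).symm
        (Equiv.sumAssoc ι (Fin N) (Fin N)).symm =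
      dsum g (1 : Matrix (Fin N ⊕ Fin N) (Fin N ⊕ Fin N) A) := by
    ext p q
    rcases p with p | p | p <;> rcases q with q | q | q <;>
      simp [dsum, Matrix.one_apply]
  rwa [e] at h1

end Aux

theorem FN (hKE : KE_stmt.{u}) (hKT : KT_stmt.{u}) (hSU : SU_stmt.{u}) (hTF : TF_stmt.{u})
    (hT4 : T4_stmt.{u}) (hVS : VS_stmt.{u}) (hVE : VE_stmt.{u}) (hL1 : L1_stmt.{u})
    (hF2 : F2_stmt.{u}) : FN_stmt.{u} := by
  intro A _ hSR M hM w w' hw r ε s hε hs hψ heq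
  obtain ⟨𝒦⟩ := hKE A
  set V0 : Matrix (Fin 4) (Fin 4) A := V (e0 A) (e0 A) with hV0
  set ψ : Matrix (Fin 4 ⊕ (Fin r ⊕ Fin r)) (Fin 4 ⊕ (Fin r ⊕ Fin r)) A :=
    dsum V0 (Hyp (Fin r) A) with hψdef
  have hs1 : IsUnit s.det := by rw [hs]; exact isUnit_one
  have hV0E : V0 ∈ E (Fin 4) A := (hVE A).1
  have hV0d : IsUnit V0.det := by rw [det_of_mem_E hV0E]; exact isUnit_one
  have hψd : IsUnit ψ.det := by
    rw [hψdef, FN_dsum_det]
    exact hV0d.mul (FN_Hyp_det _)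
  -- the class of the transpose
  have kst : 𝒦.k sᵀ = 𝒦.k s := by
    have h1 : 𝒦.k (sᵀ * ψ) = 𝒦.k (ψ * s) := by rw [hψ]
    rw [𝒦.k_mul _ _ (by rw [det_transpose]; exact hs1) hψd, 𝒦.k_mul _ _ hψd hs1, add_comm] at h1
    exact add_left_cancel h1
  obtain ⟨σ, hσ, hkσ'⟩ := hSU A hSR (Fin 4 ⊕ (Fin r ⊕ Fin r)) s (by
    simp only [Fintype.card_sum, Fintype.card_fin]; omega) hs
  have hkσ := hkσ' 𝒦
  have hσ1 : IsUnit σ.det := by rw [hσ]; exact isUnit_one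
  have hσt : 𝒦.k σᵀ = 𝒦.k s := by
    rw [hKT A 𝒦 _ _ σ s hσ1 hs1 hkσ, kst]
  obtain ⟨z, hz, hVz⟩ := hVS A σ hσ
  -- the class of `V (σ 0) z`
  have kVz : 𝒦.k (V (σ 0) z) = 2 • 𝒦.k s := by
    rw [← hVz, FN_oneSum_transpose]
    have d1 : IsUnit (oneSum σᵀ).det := by rw [FN_oneSum_det, det_transpose]; exact hσ1
    have d2 : IsUnit (oneSum σ).det := by rw [FN_oneSum_det]; exact hσ1
    rw [𝒦.k_mul _ _ (by rw [det_mul]; exact d1.mul hV0d) d2, 𝒦.k_mul _ _ d1 hV0d,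
      𝒦.k_E _ hV0E, add_zero, FN_k_oneSum 𝒦 _ (by rw [det_transpose]; exact hσ1),
      FN_k_oneSum 𝒦 _ hσ1, hσt, hkσ, two_nsmul]
  set a := σ 0 0 with ha
  set b := σ 0 1 with hb
  set c := σ 0 2 with hc
  have hrow : σ 0 = ![a, b, c] := by
    funext i
    fin_cases i <;> rfl
  rw [hrow] at hz kVz
  obtain ⟨x', hx'⟩ := FN_um_pow hz M
  obtain ⟨τ, hτ, hkτ', hEτ⟩ := hL1 A ![a ^ M, b, c] x' hx'
  have hτ1 : IsUnit τ.det := by rw [hτ]; exact isUnit_one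
  have hkτ : 𝒦.k τ = (2 * M) • 𝒦.k s := by
    rw [hkτ' 𝒦, hF2 A 𝒦 a b c z x' M hM hz hx', kVz, smul_smul, mul_comm]
  obtain ⟨z', hz', hVz'⟩ := hVS A τ hτ
  -- comparison with the power of `s`
  set S := s ^ (2 * M) with hS
  set T : Matrix (Fin 4 ⊕ (Fin r ⊕ Fin r)) (Fin 4 ⊕ (Fin r ⊕ Fin r)) A := dsum (oneSum τ) 1 with hT
  have hSd : IsUnit S.det := by rw [hS, det_pow]; exact hs1.pow _
  have hTd : IsUnit T.det := by
    rw [hT, FN_dsum_det, FN_oneSum_det, det_one, mul_one]; exact hτ1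
  obtain ⟨g, hSg⟩ : ∃ g, S * g = T :=
    ⟨S⁻¹ * T, by rw [← Matrix.mul_assoc, Matrix.mul_nonsing_inv _ hSd, Matrix.one_mul]⟩
  have hgd : IsUnit g.det := by
    have := congrArg Matrix.det hSg
    rw [det_mul] at this
    rw [← this] at hTd
    exact isUnit_of_mul_isUnit_right hTd
  have kg : 𝒦.k g = 0 := by
    have h1 : 𝒦.k S + 𝒦.k g = 𝒦.k T := by rw [← 𝒦.k_mul _ _ hSd hgd, hSg]
    have h2 : 𝒦.k T = 𝒦.k S := by
      rw [hT, 𝒦.k_dsum_one _ (by rw [FN_oneSum_det]; exact hτ1), FN_k_oneSum 𝒦 _ hτ1, hkτ, hS,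
        FN_k_pow 𝒦 s hs1]
    rw [h2] at h1
    exact left_eq_add.1 h1.symm
  obtain ⟨N, hN⟩ := 𝒦.exact g hgd kg
  have hgE := FN_E_double N hN
  -- the congruence
  set J : Matrix (Fin N ⊕ Fin N) (Fin N ⊕ Fin N) A := Hyp (Fin N) A with hJ
  set G := dsum ε (1 : Matrix (Fin N ⊕ Fin N) (Fin N ⊕ Fin N) A) *
    dsum g (1 : Matrix (Fin N ⊕ Fin N) (Fin N ⊕ Fin N) A) with hG
  have hGE : G ∈ E ((Fin 4 ⊕ (Fin r ⊕ Fin r)) ⊕ (Fin N ⊕ Fin N)) A :=
    E_mul (E_blocks_left hε) hgE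
  have hcong : Gᵀ * dsum (dsum (V w w') (Hyp (Fin r) A)) J * G =
      dsum (dsum (V (τ 0) z') (Hyp (Fin r) A)) J := by
    rw [hG, FN_dsum_mul, FN_dsum_transpose, FN_dsum_mul, FN_dsum_mul]
    simp only [Matrix.mul_one, Matrix.transpose_one, Matrix.one_mul]
    congr 1
    have h1 : (ε * g)ᵀ * dsum (V w w') (Hyp (Fin r) A) * (ε * g) =
        gᵀ * (εᵀ * dsum (V w w') (Hyp (Fin r) A) * ε) * g := by
      rw [transpose_mul]
      simp only [Matrix.mul_assoc]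
    have h2 : ψ * s ^ (4 * M) = Sᵀ * ψ * S := by
      rw [hS, FN_commute hψ, Matrix.mul_assoc, ← pow_add]
      congr 2
      ring
    have h3 : gᵀ * (Sᵀ * ψ * S) * g = Tᵀ * ψ * T := by
      have h4 : gᵀ * (Sᵀ * ψ * S) * g = (S * g)ᵀ * ψ * (S * g) := by
        rw [transpose_mul]
        simp only [Matrix.mul_assoc]
      rw [h4, hSg]
    rw [h1, heq, h2, h3, hT, hψdef, FN_dsum_transpose, FN_dsum_mul, FN_dsum_mul, hVz']
    simp
  have hGE' := E_submatrix (FN_e r N).symm hGE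
  have hcong' : (G.submatrix (FN_e r N).symm (FN_e r N).symm)ᵀ *
      dsum (V w w') (Hyp (Fin (r + N)) A) * G.submatrix (FN_e r N).symm (FN_e r N).symm =
      dsum (V (τ 0) z') (Hyp (Fin (r + N)) A) := by
    rw [← FN_e_hyp r N (V w w'), ← FN_e_hyp r N (V (τ 0) z'), ← hJ, transpose_submatrix,
      Matrix.submatrix_mul_equiv, Matrix.submatrix_mul_equiv, hcong]
  have hdw : IsUnit (V w w').det := by rw [((hVE A).2 w w').2, hw, one_pow]; exact isUnit_one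
  have hdτ : IsUnit (V (τ 0) z').det := by
    rw [((hVE A).2 (τ 0) z').2, hz', one_pow]; exact isUnit_one
  obtain ⟨h, hh, hhV⟩ := hTF A hSR (V (τ 0) z') (V w w') ((hVE A).2 _ _).1 hdτ ((hVE A).2 _ _).1
    hdw (r + N) _ hGE' hcong'
  obtain ⟨y, y', hy, -, hwy⟩ := hT4 A w w' hw h hh
  have hyτ : y = τ 0 := FN_V_inj (hy.symm.trans hhV)
  refine ⟨a, b, c, ⟨z, hz⟩, ?_⟩
  rw [hyτ] at hwy
  have e : (![a ^ M, b, c] 0) ^ 2 = a ^ (2 * M) := by
    show (a ^ M) ^ 2 = _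
    rw [← pow_mul, mul_comm]
  rw [e] at hEτ
  exact hwy.trans hEτ

end GB
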